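import Pool.Agent.H62.UN.Targets

set_option autoImplicit false

namespace Pool.Agent.H85.UNT

open Polynomial Pool.Agent.H17.UN Pool.Agent.H62.UN

theorem ord_pow {E : Type} [Field E] {o : E → ℤ} (hv : IsVal o) {a : E} (ha : a ≠ 0) (n : ℕ) :
    o (a ^ (n + 1)) = (n + 1) * o a := by
  induction n with
  | zero => simp
  | succ n ih =>
    rw [pow_succ, hv.mul _ _ (pow_ne_zero _ ha) ha, ih]
    push_cast
    ring

theorem ord_div {E : Type} [Field E] {o : E → ℤ} (hv : IsVal o) {a b : E} (ha : a ≠ 0)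
    (hb : b ≠ 0) : o (a / b) = o a - o b := by
  have h : o a = o (a / b) + o b := by
    rw [← hv.mul _ _ (div_ne_zero ha hb) hb, div_mul_cancel₀ _ hb]
  omega

theorem pf_CTQ : T_CTQ := by
  intro k E _ _ _ A o hv hc q hq hne hpos a ha
  obtain ⟨h, hhq, hh0⟩ := hne
  have hoh : 0 < o (h : E) := hpos h hhq hh0
  have ha0 : (a : E) ≠ 0 := by
    intro h0
    rw [h0, hv.zero] at ha
    exact lt_irrefl _ ha
  have hhE : (h : E) ≠ 0 := by
    intro h0
    exact hh0 (Subtype.ext h0)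
  obtain ⟨m, hm⟩ : ∃ m : ℕ, o (h : E) ≤ m := ⟨(o (h : E)).toNat, Int.self_le_toNat _⟩
  have hx0 : ((a : E) ^ (m + 1) / h) ≠ 0 := div_ne_zero (pow_ne_zero _ ha0) hhE
  have hxo : 0 ≤ o ((a : E) ^ (m + 1) / h) := by
    rw [ord_div hv (pow_ne_zero _ ha0) hhE, ord_pow hv ha0]
    nlinarith
  obtain ⟨c, hcA, d, hdA, hd0, hod, hx⟩ := hc.loc _ hx0 hxo
  have hrel : d * (a : E) ^ (m + 1) = c * h := by
    rw [div_eq_div_iff hhE hd0] at hx
    linear_combination hx
  have hrel' : (⟨d, hdA⟩ : A) * a ^ (m + 1) = ⟨c, hcA⟩ * h := by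
    apply Subtype.ext
    simpa using hrel
  have hmem : (⟨d, hdA⟩ : A) * a ^ (m + 1) ∈ q := by
    rw [hrel']
    exact q.mul_mem_left _ hhq
  rcases hq.mem_or_mem hmem with h1 | h1
  · exfalso
    have h2 : (⟨d, hdA⟩ : A) ≠ 0 := by
      intro h3
      exact hd0 (congrArg Subtype.val h3)
    have h4 := hpos _ h1 h2
    have h5 : o ((⟨d, hdA⟩ : A) : E) = 0 := hod
    omega
  · exact hq.mem_of_pow_mem _ h1

end Pool.Agent.H85.UNT
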